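import Pool.Agent.Helper62.OddMain

set_option autoImplicit false

namespace Pool.Agent.Results.MP_85dea9_al.SmallNormalizerOrbit

/-- Let `p` be a prime, `G` a finite group, `V` an irreducible complex representation of `G` of
dimension prime to `p`, `P` a Sylow `p`-subgroup of `G` and `g` an element centralised by `P`.
If every element `c` of the cyclic group generated by `g` of order prime to `p` has fewer than `r`
conjugates under the normalizer of `P`, for each prime divisor `r` of the order of `c`, then the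
character of `V` does not vanish at `g`. -/
theorem result (p : ℕ) [Fact p.Prime] (G : Type) [Group G] [Finite G] (V : FDRep ℂ G)
    (hV : CategoryTheory.Simple V) (hdim : ¬ p ∣ Module.finrank ℂ V)
    (g : G) (P : Sylow p G) (hP : ∀ q ∈ P, q * g = g * q)
    (hr : ∀ c ∈ Subgroup.zpowers g, (orderOf c).Coprime p →
      ∀ r : ℕ, r.Prime → r ∣ orderOf c →
        Nat.card {x : G // ∃ n ∈ Subgroup.normalizer (P : Set G), n * c * n⁻¹ = x} < r) :
    V.character g ≠ 0 := by
  obtain ⟨e, K, hcop, hK⟩ := Pool.Agent.Helper62.OddCl.exists_part p g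
  have h1 : Commute g (g ^ e) := Commute.self_pow g e
  have h2 : Commute g (g ^ e)⁻¹ := h1.inv_right
  have h3 : g * (g ^ e)⁻¹ * g ^ e = g := by group
  have h4 : (g * (g ^ e)⁻¹) * g ^ e = g ^ e * (g * (g ^ e)⁻¹) := by
    rw [h3, ← mul_assoc, ← h1.eq]
    group
  have h5 : (g * (g ^ e)⁻¹) ^ p ^ K = 1 := by
    rw [h2.mul_pow, inv_pow, ← hK, mul_inv_cancel]
  have h6 := Pool.Agent.Helper62.OddCl.main_small V hdim (g * (g ^ e)⁻¹) (g ^ e) h4 K h5 hcop P (by
    intro q hq
    rw [h3]
    exact hP q hq) (hr (g ^ e) (Subgroup.npow_mem_zpowers g e) hcop)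
  rw [h3] at h6
  exact h6

end Pool.Agent.Results.MP_85dea9_al.SmallNormalizerOrbit
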